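import Mathlib
import Pool.Agent.X225.Specker

/-!
# Hereditary classes in binary vocabularies, in particular of graphs, not MC-finite
-/

namespace Pool.Agent.Results.MP_602553_lc.BinaryVocabulariesAndGraphs

open FirstOrder FirstOrder.Language Pool.Agent.X225.Specker

/-- a sequence is MC-finite if for every `m ≥ 1` there are `r, p ≥ 1` and integers `α₀, …, α_p` such
that `s (n + p + 1) ≡ α₀ s n + ⋯ + α_p s (n + p)` modulo `m` for all `n ≥ r` -/
def IsMCFinite (s : ℕ → ℕ) : Prop :=
  ∀ m : ℕ, 1 ≤ m → ∃ r p : ℕ, 1 ≤ r ∧ 1 ≤ p ∧ ∃ α : ℕ → ℤ, ∀ n, r ≤ n →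
    (s (n + p + 1) : ℤ) ≡ ∑ i ∈ Finset.range (p + 1), α i * (s (n + i) : ℤ) [ZMOD m]

theorem not_mcFinite {s : ℕ → ℕ} {m : ℕ} (hm : 1 ≤ m) (h : ¬ RecurrentMod m s) :
    ¬ IsMCFinite s := by
  intro h2
  obtain ⟨r, p, h3, h4, α, hα⟩ := h2 m hm
  exact h ⟨r, p + 1, h3, by omega, α, fun n hn => hα n hn⟩

/-- a structure with one binary relation is (the structure of) a simple graph -/
def IsSimpleGraph (A : Type) (SA : Language.graph.Structure A) : Prop :=
  (∀ x : A, ¬ SA.RelMap Language.adj ![x, x]) ∧
    ∀ x y : A, SA.RelMap Language.adj ![x, y] → SA.RelMap Language.adj ![y, x]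

instance : Language.graph.IsRelational := fun n => by
  change IsEmpty Empty
  infer_instance

instance : Finite (Σ n, Language.graph.Relations n) := by
  refine Finite.of_injective (β := Unit) (fun _ => ()) ?_
  rintro ⟨n, R⟩ ⟨m, S⟩ _
  cases R
  cases S
  rfl

theorem comp_pair {A B : Type} (f : A → B) (x y : A) : f ∘ ![x, y] = ![f x, f y] := by
  funext i
  fin_cases i <;> rfl

theorem graph_closed : SubstructureClosed fun A (SA : Language.graph.Structure A) =>
    Finite A ∧ IsSimpleGraph A SA where
  finite := fun A _ h => h.1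
  closed := by
    intro A B SA SB hAB hB
    obtain ⟨e⟩ := hAB
    obtain ⟨hfin, h1, h2⟩ := hB
    refine ⟨Finite.of_injective e e.injective, fun x hx => ?_, fun x y hxy => ?_⟩
    · apply h1 (e x)
      rw [← comp_pair]
      exact (e.map_rel Language.adj _).mpr hx
    · have h3 := (e.map_rel Language.adj ![x, y]).mpr hxy
      rw [comp_pair] at h3
      have h4 := h2 _ _ h3
      rw [← comp_pair] at h4
      exact (e.map_rel Language.adj _).mp h4

theorem pair_eq {A : Type} (x y : A) : (pair x y : Fin (0 + 2) → A) = ![x, y] := by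
  funext i
  fin_cases i <;> rfl

theorem one_ne {k : ℕ} : (1 : Fin (k + 5)) ≠ 0 := by
  intro h
  have := congrArg Fin.val h
  simp at this

/-- the family of blown up cycles -/
def cycleFamily (p : ℕ) (hp : 0 < p) : Family Language.graph p where
  c := 5
  r := 0
  R0 := Language.adj
  E := fun _ => CE
  inv := fun _ h hh a b => CE_inv h hh a b
  anti := fun _ _ f _ h => CE_injective_eq hp f h
  G := fun A SA => Finite A ∧ IsSimpleGraph A SA
  closed := graph_closed
  mem := by
    intro k
    refine ⟨inferInstance, fun x hx => ?_, fun x y hxy => ?_⟩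
    · have h := (relMap_pair (r := 0) Language.adj (CE (p := p) (k := k)) x x).mp (by
        rw [pair_eq]
        exact hx)
      have h2 : x.1 = x.1 + 1 := by
        rcases h with h | h <;> exact h
      exact one_ne (left_eq_add.mp h2)
    · have h := (relMap_pair (r := 0) Language.adj (CE (p := p) (k := k)) x y).mp (by
        rw [pair_eq]
        exact hxy)
      have h2 := (relMap_pair (r := 0) Language.adj (CE (p := p) (k := k)) y x).mpr h.symm
      rw [pair_eq] at h2
      exact h2

/-- (1) For every finite relational vocabulary `L` all of whose symbols have arity at most two and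
which has at least one binary symbol, and every modulus `m ≥ 2`, there is a substructure-closed
class `C` of finite `L`-structures whose Specker function satisfies no linear recurrence modulo
`m`; in particular it is not MC-finite.
(2) For the vocabulary of graphs, `C` can be taken to be a hereditary class of finite simple
graphs. -/
theorem result :
    (∀ (L : FirstOrder.Language.{0, 0}) (_ : L.IsRelational) (_ : Finite (Σ n, L.Relations n)),
      (∀ n, Nonempty (L.Relations n) → n ≤ 2) → Nonempty (L.Relations 2) → ∀ m : ℕ, 2 ≤ m →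
      ∃ C : StrClass L, SubstructureClosed C ∧ ¬ RecurrentMod m (Sp C) ∧ ¬ IsMCFinite (Sp C)) ∧
    (∀ m : ℕ, 2 ≤ m → ∃ C : StrClass Language.graph, SubstructureClosed C ∧
      (∀ (A : Type) (SA : Language.graph.Structure A), C A SA → IsSimpleGraph A SA) ∧
      ¬ RecurrentMod m (Sp C) ∧ ¬ IsMCFinite (Sp C)) := by
  have key : ∀ (L : FirstOrder.Language.{0, 0}) (_ : L.IsRelational)
      (_ : Finite (Σ n, L.Relations n)) (m : ℕ) (hm : 2 ≤ m) (F : Family L (Nat.minFac m)),
      ∃ C : StrClass L, SubstructureClosed C ∧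
        (∀ (A : Type) (SA : L.Structure A), C A SA → F.G A SA) ∧
        ¬ RecurrentMod m (Sp C) ∧ ¬ IsMCFinite (Sp C) := by
    intro L _ _ m hm F
    have hp : Fact (Nat.minFac m).Prime := ⟨Nat.minFac_prime (by omega)⟩
    obtain ⟨C, hC, hG, hrec⟩ := exists_not_recurrent F
    have h : ¬ RecurrentMod m (Sp C) := by
      rintro ⟨r', q, h1, h2, α, hα⟩
      refine hrec ⟨r', q, h1, h2, α, fun n hn => (hα n hn).of_dvd ?_⟩
      exact_mod_cast Nat.minFac_dvd m
    exact ⟨C, hC, hG, h, not_mcFinite (by omega) h⟩
  constructor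
  · intro L _ _ _ hR m hm
    obtain ⟨R⟩ := hR
    obtain ⟨C, hC, -, h⟩ := key L inferInstance inferInstance m hm
      (pathFamily (Nat.minFac m) (Nat.minFac_pos m) (r := 0) R)
    exact ⟨C, hC, h⟩
  · intro m hm
    obtain ⟨C, hC, hG, h⟩ := key Language.graph inferInstance inferInstance m hm
      (cycleFamily (Nat.minFac m) (Nat.minFac_pos m))
    exact ⟨C, hC, fun A SA hA => (hG A SA hA).2, h⟩

end Pool.Agent.Results.MP_602553_lc.BinaryVocabulariesAndGraphs
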